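import Pool.Agent.H7.HD.Targets11
import Pool.Agent.H3.HD.DM

/-!
# Module DG of the proof for MP_e37c09_lc: definability of the Mitchell order with codes
-/

open Ordinal Cardinal Order Set
open scoped ZFSet

universe u

namespace Pool.Agent.H3.HD11

open _root_.HD Pool.Agent.H3.HD.DM

theorem dg : T_DG.{u} := by
  intro en hen
  have h := DZ.rec dz_Ph hF
  refine ⟨fun v => ∃ y : ZFSet.{u}, ((v 1).IsOrdinal ∧ y = F (v 0) (v 1).rank) ∧
    ∃ U : ZFSet.{u}, ((v 2).IsOrdinal ∧ U = en (v 2).rank) ∧ U ∈ y, ?_, ?_⟩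
  · refine DZ.ex (DZ.and ?_ (DZ.ex (DZ.and ?_ (DZ.mem 0 1))))
    · exact h.ren fun n => if n = 0 then 1 else if n = 1 then 2 else 0
    · exact hen.dz.ren fun n => if n = 0 then 4 else 0
  · intro w
    constructor
    · intro hU
      refine ⟨F (w 0).toZFSet (w 1), ⟨ZFSet.isOrdinal_toZFSet _, ?_⟩, en (w 2),
        ⟨ZFSet.isOrdinal_toZFSet _, ?_⟩, ?_⟩
      · simp [ov, rank_toZFSet]
      · simp [ov, rank_toZFSet]
      · rw [mem_F]
        exact ⟨ZFSet.isOrdinal_toZFSet _, by rwa [rank_toZFSet]⟩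
    · rintro ⟨y, ⟨-, rfl⟩, U, ⟨-, rfl⟩, hU⟩
      rw [mem_F] at hU
      simpa [ov, rank_toZFSet] using hU.2

end Pool.Agent.H3.HD11
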