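import Pool.Agent.H7.HD.Targets11
import Pool.Agent.H3.HD.DM

/-!
# Module MLC of the proof for MP_e37c09_lc: the Mitchell order in terms of codes
-/

open Ordinal Cardinal Order Set
open scoped ZFSet

universe u

namespace Pool.Agent.H3.HD11

open _root_.HD

theorem mlc (hHMI : T_HMI.{u}) : T_MLC.{u} := by
  intro en hen κ U W _ hML
  obtain ⟨f, y, hf, hfn, h1, h2⟩ := hML
  obtain ⟨c, hc⟩ : ∃ c : Ordinal.{u} → Ordinal.{u},
      ∀ b, c b = sInf {z | ZFSet.pair b.toZFSet (en z) ∈ f} := ⟨_, fun _ => rfl⟩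
  -- values
  have hval : ∀ b < κ, ZFSet.pair b.toZFSet (en (c b)) ∈ f := by
    intro b hb
    obtain ⟨u, hu, -⟩ := hfn.2 b.toZFSet (toZFSet_mem_toZFSet_iff.2 hb)
    have hu' : HOD u := by
      have h3 : HOD (ZFSet.pair b.toZFSet u) := (hod_iff.1 hf).2 _ hu
      have h4 : HOD ({b.toZFSet, u} : ZFSet.{u}) := (hod_iff.1 h3).2 _ (by
        rw [ZFSet.pair, ZFSet.mem_pair]
        exact Or.inr rfl)
      exact (hod_iff.1 h4).2 _ (by
        rw [ZFSet.mem_pair]
        exact Or.inr rfl)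
    obtain ⟨z, hz⟩ := (hen.od u).1 hu'.od
    rw [hc]
    exact csInf_mem (s := {z | ZFSet.pair b.toZFSet (en z) ∈ f}) ⟨z, by
      show ZFSet.pair b.toZFSet (en z) ∈ f
      rw [hz]
      exact hu⟩
  have huniq : ∀ b < κ, ∀ u, ZFSet.pair b.toZFSet u ∈ f ↔ u = en (c b) := by
    intro b hb u
    constructor
    · intro hu
      obtain ⟨u', -, hu'⟩ := hfn.2 b.toZFSet (toZFSet_mem_toZFSet_iff.2 hb)
      exact (hu' u hu).trans (hu' _ (hval b hb)).symm
    · rintro rfl
      exact hval b hb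
  have hsep : ∀ (p : ZFSet.{u} → Prop) (X : Set Ordinal.{u}),
      (∀ b < κ, p b.toZFSet ↔ b ∈ X) → (κ.toZFSet).sep p = os κ X := by
    intro p X h
    ext z
    rw [ZFSet.mem_sep, mem_os]
    constructor
    · rintro ⟨hz, hp⟩
      obtain ⟨a, ha, rfl⟩ := mem_toZFSet_iff.1 hz
      exact ⟨a, ha, (h a ha).1 hp, rfl⟩
    · rintro ⟨a, ha, haX, rfl⟩
      exact ⟨toZFSet_mem_toZFSet_iff.2 ha, (h a ha).2 haX⟩
  refine ⟨c, ?_, ?_, ?_⟩
  · -- definability
    have hP : DO.{u} fun w => ZFSet.pair (w 0).toZFSet (en (w 1)) ∈ f := by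
      refine ⟨fun v => ∃ F : ZFSet.{u}, F = f ∧ ∃ u : ZFSet.{u},
        ((v 1).IsOrdinal ∧ u = en (v 1).rank) ∧ ZFSet.pair (v 0) u ∈ F, ?_, ?_⟩
      · refine DZ.ex (DZ.and ?_ (DZ.ex (DZ.and ?_ ?_)))
        · exact hf.od.dz
        · exact hen.dz.ren fun n => if n = 0 then 3 else 0
        · exact (loc_pmem 2 0 1).dz
      · intro w
        constructor
        · intro h
          exact ⟨f, rfl, en (w 1), ⟨ZFSet.isOrdinal_toZFSet _, by simp [ov, rank_toZFSet]⟩, h⟩
        · rintro ⟨_, rfl, u, ⟨-, rfl⟩, h⟩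
          simpa [ov, rank_toZFSet] using h
    have h3 : DO.{u} fun w => (ZFSet.pair (w 0).toZFSet (en (w 1)) ∈ f ∧
        ∀ z < w 1, ¬ ZFSet.pair (w 0).toZFSet (en z) ∈ f) ∨
        ((∀ z, ¬ ZFSet.pair (w 0).toZFSet (en z) ∈ f) ∧ w 1 = 0) := by
      refine (hP.and (DO.allLt 1 ?_)).or ((DO.all ?_).and (DO.eqc 1 0))
      · exact (DO.s2 (X := fun a b => ZFSet.pair a.toZFSet (en b) ∈ f) hP 1 0).not
      · exact (DO.s2 (X := fun a b => ZFSet.pair a.toZFSet (en b) ∈ f) hP 1 0).not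
    refine DO.congr h3 fun w => ?_
    show w 1 = c (w 0) ↔ _
    rw [hc]
    constructor
    · intro h
      rcases Set.eq_empty_or_nonempty {z | ZFSet.pair (w 0).toZFSet (en z) ∈ f} with h0 | h0
      · right
        rw [h0, Ordinal.sInf_empty] at h
        refine ⟨fun z hz => ?_, h⟩
        have : z ∈ (∅ : Set Ordinal.{u}) := by
          rw [← h0]
          exact hz
        exact this
      · left
        refine ⟨?_, fun z hz hz' => ?_⟩
        · rw [h]
          exact csInf_mem h0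
        · rw [h] at hz
          exact absurd (csInf_le' (s := {z | ZFSet.pair (w 0).toZFSet (en z) ∈ f}) hz')
            (not_le.2 hz)
    · rintro (⟨h4, h5⟩ | ⟨h4, h5⟩)
      · refine le_antisymm ?_ (csInf_le' h4)
        by_contra h6
        rw [not_le] at h6
        exact h5 _ h6 (csInf_mem (s := {z | ZFSet.pair (w 0).toZFSet (en z) ∈ f}) ⟨_, h4⟩)
      · have h6 : {z | ZFSet.pair (w 0).toZFSet (en z) ∈ f} = ∅ :=
          Set.eq_empty_of_forall_notMem h4
        rw [h6, Ordinal.sInf_empty, h5]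
  · have h3 := hsep (fun b => ∃ u, ZFSet.pair b u ∈ f ∧ HMeas b.rank u)
      {b | NMe b (en (c b))} (fun b hb => by
        show (∃ u, ZFSet.pair b.toZFSet u ∈ f ∧ HMeas b.toZFSet.rank u) ↔ NMe b (en (c b))
        rw [rank_toZFSet, ← hHMI]
        constructor
        · rintro ⟨u, hu, h⟩
          rwa [(huniq b hb u).1 hu] at h
        · intro h
          exact ⟨_, hval b hb, h⟩)
    rw [← h3]
    exact h1
  · intro X hX
    rw [h2 _ (hod_os hX κ) (fun z hz => by
      obtain ⟨a, ha, -, rfl⟩ := mem_os.1 hz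
      exact toZFSet_mem_toZFSet_iff.2 ha)]
    have h3 := hsep (fun b => ∃ u, ZFSet.pair b u ∈ f ∧ os κ X ∩ b ∈ u)
      {b | os b X ∈ en (c b)} (fun b hb => by
        have h4 : os κ X ∩ b.toZFSet = os b X := by
          ext z
          rw [ZFSet.mem_inter, mem_os, mem_os]
          constructor
          · rintro ⟨⟨a, -, haX, rfl⟩, hz⟩
            exact ⟨a, toZFSet_mem_toZFSet_iff.1 hz, haX, rfl⟩
          · rintro ⟨a, ha, haX, rfl⟩
            exact ⟨⟨a, ha.trans hb, haX, rfl⟩, toZFSet_mem_toZFSet_iff.2 ha⟩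
        show (∃ u, ZFSet.pair b.toZFSet u ∈ f ∧ os κ X ∩ b.toZFSet ∈ u) ↔ os b X ∈ en (c b)
        rw [h4]
        constructor
        · rintro ⟨u, hu, h⟩
          rwa [(huniq b hb u).1 hu] at h
        · intro h
          exact ⟨_, hval b hb, h⟩)
    rw [h3]

end Pool.Agent.H3.HD11
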